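import Mathlib

/-!
# MP_98cb65_gt, Q2: a locally connected continuum without property (F)

The infinite torus `(S¹)^ℕ` is a locally connected continuum with arbitrarily small fixed point free
involutions. More generally, an infinite power `Z = Y^ℕ` of a compact metrizable space has property (F) if and
only if it has the fixed point property.
-/

set_option autoImplicit false

open Filter Topology

namespace Pool.Agent.Zk98.Keep.PowersAndDisplacement

/-- `T` has iterate displacement below `B`: `d (T^ν x, x) < B` for all `x` and all `ν ≥ 1`. -/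
def DisplacementBelow {X : Type} [MetricSpace X] (T : X → X) (B : ℝ) : Prop :=
  ∀ (x : X) (ν : ℕ), 1 ≤ ν → dist (T^[ν] x) x < B

/-- Property (F): there is `B > 0` such that every continuous self-map with iterate displacement below `B` has a
fixed point. -/
def PropertyF (X : Type) [MetricSpace X] : Prop :=
  ∃ B : ℝ, 0 < B ∧ ∀ T : X → X, Continuous T → DisplacementBelow T B → ∃ x, T x = x

/-- The fixed point property. -/
def FixedPointProperty (X : Type) [TopologicalSpace X] : Prop :=
  ∀ T : X → X, Continuous T → ∃ x, T x = x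

theorem small {Z X : Type} [TopologicalSpace Z] [CompactSpace Z] [MetricSpace X] (φ : (ℕ → Z) → X)
    (hφ : Continuous φ) {B : ℝ} (hB : 0 < B) :
    ∃ k, ∀ y z, dist (φ (Function.update y k z)) (φ y) < B := by
  by_contra hcon
  push Not at hcon
  choose y z h using hcon
  obtain ⟨a, -, ha⟩ := isCompact_univ.ultrafilter_le_nhds ((hyperfilter ℕ).map y) (by simp)
  have h1 : Tendsto y (hyperfilter ℕ) (𝓝 a) := ha
  have h2 : Tendsto (fun k => Function.update (y k) k (z k)) (hyperfilter ℕ) (𝓝 a) := by
    rw [tendsto_pi_nhds] at h1 ⊢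
    intro i
    refine (h1 i).congr' ?_
    have : ∀ᶠ k in (hyperfilter ℕ : Filter ℕ), k ≠ i :=
      hyperfilter_le_cofinite (eventually_cofinite_ne i)
    filter_upwards [this] with k hk
    rw [Function.update_of_ne (Ne.symm hk)]
  have h3 : Tendsto (fun k => dist (φ (Function.update (y k) k (z k))) (φ (y k))) (hyperfilter ℕ)
      (𝓝 0) := by
    simpa using ((hφ.tendsto a).comp h2).dist ((hφ.tendsto a).comp h1)
  obtain ⟨k, hk⟩ := (h3.eventually (gt_mem_nhds hB)).exists
  exact absurd (h k) (not_le.2 hk)

/-- the map `g` in the coordinate `k` -/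
def mv {Z : Type} (g : Z → Z) (k : ℕ) (y : ℕ → Z) : ℕ → Z := Function.update y k (g (y k))

theorem mv_iter {Z : Type} (g : Z → Z) (k : ℕ) (ν : ℕ) (y : ℕ → Z) :
    (mv g k)^[ν] y = Function.update y k (g^[ν] (y k)) := by
  induction ν generalizing y with
  | zero => simp
  | succ ν ih =>
    rw [Function.iterate_succ_apply, ih, Function.iterate_succ_apply]
    simp [mv]

theorem mv_cont {Z : Type} [TopologicalSpace Z] {g : Z → Z} (hg : Continuous g) (k : ℕ) :
    Continuous (mv g k) :=
  continuous_id.update k (hg.comp (continuous_apply k))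

theorem conj_iter {X Y : Type} (e : X ≃ Y) (f : Y → Y) (ν : ℕ) (x : X) :
    (fun x => e.symm (f (e x)))^[ν] x = e.symm (f^[ν] (e x)) := by
  induction ν generalizing x with
  | zero => simp
  | succ ν ih =>
    rw [Function.iterate_succ_apply, ih, Function.iterate_succ_apply]
    simp

theorem exists_small {Z X : Type} [TopologicalSpace Z] [CompactSpace Z] [MetricSpace X]
    (e : X ≃ₜ (ℕ → Z)) {g : Z → Z} {B : ℝ} (hB : 0 < B) :
    ∃ k, DisplacementBelow (fun x => e.symm (mv g k (e x))) B := by
  obtain ⟨k, hk⟩ := small e.symm e.symm.continuous hB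
  refine ⟨k, fun x ν _ => ?_⟩
  have h1 : (fun x => e.symm (mv g k (e x)))^[ν] x = e.symm ((mv g k)^[ν] (e x)) :=
    conj_iter e.toEquiv (mv g k) ν x
  rw [h1, mv_iter]
  have := hk (e x) (g^[ν] (e x k))
  rwa [e.symm_apply_apply] at this

theorem not_F {Z X : Type} [TopologicalSpace Z] [CompactSpace Z] [MetricSpace X]
    (e : X ≃ₜ (ℕ → Z)) (hZ : ¬ FixedPointProperty Z) : ¬ PropertyF X := by
  unfold FixedPointProperty at hZ
  push Not at hZ
  obtain ⟨g, hg, hfix⟩ := hZ
  rintro ⟨B, hB, h⟩
  obtain ⟨k, hk⟩ := exists_small e (g := g) hB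
  obtain ⟨x, hx⟩ := h _ (e.symm.continuous.comp ((mv_cont hg k).comp e.continuous)) hk
  have h1 : mv g k (e x) = e x := by
    have := congrArg e hx
    simpa using this
  have h2 := congrFun h1 k
  simp only [mv, Function.update_self] at h2
  exact hfix _ h2

/-- `(Y^ℕ)^ℕ` is homeomorphic to `Y^ℕ`. -/
def power (Y : Type) [TopologicalSpace Y] : (ℕ → Y) ≃ₜ (ℕ → ℕ → Y) where
  toFun y i j := y (Nat.pair i j)
  invFun y n := y n.unpair.1 n.unpair.2
  left_inv y := by ext n; simp
  right_inv y := by ext i j; simp
  continuous_toFun := by fun_prop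
  continuous_invFun := by fun_prop

instance : LocallyConnectedSpace Circle :=
  ChartedSpace.locallyConnectedSpace (EuclideanSpace ℝ (Fin 1)) Circle

/-- (1) The infinite torus `(S¹)^ℕ` with the product topology is a locally connected continuum: compact,
metrizable, connected, locally connected. (2) For every metric inducing its topology (that is, for every metric
space `X` homeomorphic to `(S¹)^ℕ`) and every `B > 0` there is a homeomorphism `T` of `X` with `T ∘ T = id`,
without fixed points and with iterate displacement below `B`. (3) Hence `X` does not have property (F), so there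
is a locally connected continuum without property (F). (4) Every metric space `X` homeomorphic to an infinite
power `Y^ℕ` of a compact metrizable space `Y` has property (F) if and only if it has the fixed point property. -/
theorem result :
    (CompactSpace (ℕ → Circle) ∧ TopologicalSpace.MetrizableSpace (ℕ → Circle) ∧
      ConnectedSpace (ℕ → Circle) ∧ LocallyConnectedSpace (ℕ → Circle)) ∧
    (∀ (X : Type) [MetricSpace X], Nonempty (X ≃ₜ (ℕ → Circle)) → ∀ B : ℝ, 0 < B →
      ∃ T : X ≃ₜ X, (∀ x, T (T x) = x) ∧ (∀ x, T x ≠ x) ∧ DisplacementBelow T B) ∧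
    (∃ (X : Type) (_ : MetricSpace X), CompactSpace X ∧ ConnectedSpace X ∧ LocallyConnectedSpace X ∧
      ¬ PropertyF X) ∧
    (∀ (Y X : Type) [TopologicalSpace Y] [CompactSpace Y] [TopologicalSpace.MetrizableSpace Y]
      [MetricSpace X], Nonempty (X ≃ₜ (ℕ → Y)) → (PropertyF X ↔ FixedPointProperty X)) := by
  have hneg : ∀ c : Circle, -c ≠ c := by
    intro c hc
    have h1 := congrArg Subtype.val hc
    have h2 : -(c : ℂ) = c := by simpa using h1
    have h3 : (c : ℂ) = 0 := by
      have : (2 : ℂ) * c = 0 := by linear_combination -h2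
      exact (mul_eq_zero.1 this).resolve_left two_ne_zero
    exact Circle.coe_ne_zero c h3
  have key : ∀ (X : Type) [MetricSpace X], Nonempty (X ≃ₜ (ℕ → Circle)) → ∀ B : ℝ, 0 < B →
      ∃ T : X ≃ₜ X, (∀ x, T (T x) = x) ∧ (∀ x, T x ≠ x) ∧ DisplacementBelow T B := by
    rintro X _ ⟨e⟩ B hB
    obtain ⟨k, hk⟩ := exists_small e (g := fun c : Circle => -c) hB
    have hinv : ∀ x, e.symm (mv (fun c : Circle => -c) k
        (e (e.symm (mv (fun c : Circle => -c) k (e x))))) = x := by
      intro x
      rw [e.apply_symm_apply]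
      simp [mv]
    have hcont : Continuous fun x => e.symm (mv (fun c : Circle => -c) k (e x)) :=
      e.symm.continuous.comp ((mv_cont continuous_neg k).comp e.continuous)
    refine ⟨⟨⟨fun x => e.symm (mv (fun c : Circle => -c) k (e x)),
      fun x => e.symm (mv (fun c : Circle => -c) k (e x)), hinv, hinv⟩, hcont, hcont⟩, hinv, ?_, hk⟩
    intro x hx
    have h1 : mv (fun c : Circle => -c) k (e x) = e x := by
      have := congrArg e hx
      simpa using this
    have h2 := congrFun h1 k
    simp only [mv, Function.update_self] at h2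
    exact hneg _ h2
  refine ⟨⟨inferInstance, inferInstance, inferInstance, inferInstance⟩, key, ?_, ?_⟩
  · let _ : MetricSpace (ℕ → Circle) := TopologicalSpace.metrizableSpaceMetric (ℕ → Circle)
    refine ⟨ℕ → Circle, inferInstance, inferInstance, inferInstance, inferInstance, ?_⟩
    rintro ⟨B, hB, h⟩
    obtain ⟨T, -, h1, h2⟩ := key (ℕ → Circle) ⟨Homeomorph.refl _⟩ B hB
    obtain ⟨x, hx⟩ := h T T.continuous h2
    exact h1 x hx
  · rintro Y X _ _ _ _ ⟨e⟩
    constructor
    · intro h
      by_contra hcon
      refine not_F (e.trans (power Y)) ?_ h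
      intro hY
      apply hcon
      intro T hT
      obtain ⟨y, hy⟩ := hY (fun y => e (T (e.symm y))) (e.continuous.comp (hT.comp e.symm.continuous))
      exact ⟨e.symm y, e.injective (by rw [e.apply_symm_apply]; exact hy)⟩
    · intro h
      exact ⟨1, one_pos, fun T hT _ => h T hT⟩

end Pool.Agent.Zk98.Keep.PowersAndDisplacement
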